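import Pool.Agent.Helper19.HO.Defs
import Mathlib.Analysis.Calculus.InverseFunctionTheorem.ContDiff
import Mathlib.Analysis.Calculus.Implicit

/-!
# Project HO, piece HO-16: local surjectivity, uniformly in the projection
-/

open MeasureTheory Set Metric Filter Module
open scoped NNReal Topology RealInnerProductSpace ENNReal Real ContDiff Manifold

namespace Pool.Agent.Helper19.HO

section Crofton

variable {E H ι : Type*} [NormedAddCommGroup E] [InnerProductSpace ℝ E] [NormedAddCommGroup H]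
  [InnerProductSpace ℝ H] [Fintype ι]

theorem act_apply16 (b : OrthonormalBasis ι ℝ H) (p : PiLp 2 (fun _ : ι => E)) (h : H) :
    act b p h = ∑ j, (inner ℝ (b j) h) • p j := by
  simp [act]

theorem hasStrictFDerivAt_act (b : OrthonormalBasis ι ℝ H) {g : E → H} {x : E} {D : E →L[ℝ] H}
    (hg : HasStrictFDerivAt g D x) (p₀ : PiLp 2 (fun _ : ι => E)) :
    ∃ L : (PiLp 2 (fun _ : ι => E)) × E →L[ℝ] (PiLp 2 (fun _ : ι => E)) × E,
      HasStrictFDerivAt (fun q : (PiLp 2 (fun _ : ι => E)) × E => (q.1, act b q.1 (g q.2)))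
        L (p₀, x) ∧ ∀ dp dy, L (dp, dy) = (dp, act b dp (g x) + act b p₀ (D dy)) := by
  have h2 : HasStrictFDerivAt (fun q : (PiLp 2 (fun _ : ι => E)) × E => g q.2)
      (D ∘L ContinuousLinearMap.snd ℝ _ _) (p₀, x) :=
    HasStrictFDerivAt.comp (f := Prod.snd) (g := g) (p₀, x) hg hasStrictFDerivAt_snd
  have h3 : ∀ j, HasStrictFDerivAt
      (fun q : (PiLp 2 (fun _ : ι => E)) × E => (inner ℝ (b j) (g q.2)) • q.1 j)
      ((inner ℝ (b j) (g x)) • ((PiLp.proj (𝕜 := ℝ) 2 (fun _ : ι => E) j) ∘L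
        ContinuousLinearMap.fst ℝ _ _)
        + ((innerSL ℝ (b j)) ∘L (D ∘L ContinuousLinearMap.snd ℝ _ _)).smulRight (p₀ j))
      (p₀, x) := by
    intro j
    have ha : HasStrictFDerivAt
        (fun q : (PiLp 2 (fun _ : ι => E)) × E => innerSL ℝ (b j) (g q.2))
        ((innerSL ℝ (b j)) ∘L (D ∘L ContinuousLinearMap.snd ℝ _ _)) (p₀, x) :=
      (innerSL ℝ (b j)).hasStrictFDerivAt.comp (p₀, x) h2
    have hb : HasStrictFDerivAt
        (fun q : (PiLp 2 (fun _ : ι => E)) × E => q.1 j)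
        ((PiLp.proj (𝕜 := ℝ) 2 (fun _ : ι => E) j) ∘L
          ContinuousLinearMap.fst ℝ _ _) (p₀, x) :=
      ((PiLp.proj (𝕜 := ℝ) 2 (fun _ : ι => E) j) ∘L
          ContinuousLinearMap.fst ℝ (PiLp 2 (fun _ : ι => E)) E).hasStrictFDerivAt
    exact ha.smul hb
  have h4 := HasStrictFDerivAt.fun_sum (u := Finset.univ) (fun j _ => h3 j)
  have h5 : HasStrictFDerivAt (fun q : (PiLp 2 (fun _ : ι => E)) × E => act b q.1 (g q.2))
      (∑ j, ((inner ℝ (b j) (g x)) • ((PiLp.proj (𝕜 := ℝ) 2 (fun _ : ι => E) j) ∘L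
        ContinuousLinearMap.fst ℝ _ _)
        + ((innerSL ℝ (b j)) ∘L (D ∘L ContinuousLinearMap.snd ℝ _ _)).smulRight (p₀ j)))
      (p₀, x) := by
    refine h4.congr_of_eventuallyEq (Eventually.of_forall fun q => ?_)
    exact (act_apply16 b q.1 (g q.2)).symm
  refine ⟨_, hasStrictFDerivAt_fst.prodMk h5, fun dp dy => ?_⟩
  rw [act_apply16, act_apply16]
  simp [Finset.sum_add_distrib]

theorem eventually_covers [FiniteDimensional ℝ E] [FiniteDimensional ℝ H]
    (b : OrthonormalBasis ι ℝ H) {g : E → H} {x : E}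
    (hg : ContDiffAt ℝ 1 g x) (p₀ : PiLp 2 (fun _ : ι => E))
    (hdet : (act b p₀ ∘L fderiv ℝ g x).det ≠ 0) {U : Set E} (hU : U ∈ 𝓝 x) :
    ∀ᶠ q : PiLp 2 (fun _ : ι => E) × E in 𝓝 (p₀, act b p₀ (g x)),
      ∃ y ∈ U, act b q.1 (g y) = q.2 := by
  have : CompleteSpace E := FiniteDimensional.complete ℝ E
  obtain ⟨L, hL, hLa⟩ := hasStrictFDerivAt_act b (hg.hasStrictFDerivAt one_ne_zero) p₀
  have hsj : Function.Surjective (act b p₀ ∘L fderiv ℝ g x) := by
    exact (LinearMap.equivOfDetNeZero (act b p₀ ∘L fderiv ℝ g x : E →L[ℝ] E).toLinearMap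
      hdet).surjective
  have hsurj : L.range = ⊤ := by
    refine LinearMap.range_eq_top.2 ?_
    rintro ⟨p, z⟩
    obtain ⟨y, hy⟩ := hsj (z - act b p (g x))
    refine ⟨(p, y), ?_⟩
    have h6 := hLa p y
    rw [show act b p₀ (fderiv ℝ g x y) = z - act b p (g x) from hy] at h6
    rw [add_sub_cancel] at h6
    exact h6
  have hmap := hL.map_nhds_eq_of_surj hsurj
  have hmem : {q : (PiLp 2 (fun _ : ι => E)) × E | q.2 ∈ U} ∈ 𝓝 (p₀, x) :=
    (continuous_snd.tendsto (p₀, x)) hU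
  have := image_mem_map (m := fun q : (PiLp 2 (fun _ : ι => E)) × E => (q.1, act b q.1 (g q.2))) hmem
  rw [hmap] at this
  filter_upwards [this]
  rintro q ⟨⟨p, y⟩, hy, rfl⟩
  exact ⟨y, hy, rfl⟩

end Crofton

end Pool.Agent.Helper19.HO
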